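import Pool.Agent.W_448i2_h61.IG

/-!
# The cusp substitution (MP_448cb3_co, case B, counting argument)

The energy variable becomes `- w s ^ 2`, the variable `dd` becomes `w ^ 2 s ^ 3`. `cE w k f` is the
coefficient of `s ^ k`. `Ev w K f`: the coefficients of `s ^ k` with `2 k < K` vanish.
`count_arg`: the counting argument.
-/

namespace Pool.Agent.GaussPoset.Win.Cu

set_option linter.unusedSectionVars false

open Finset

/-- the exponents of weight `k` -/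
def sx (k : ℕ) : Finset (ℕ × ℕ) :=
  ((Finset.range (k + 1)) ×ˢ (Finset.range (k + 1))).filter (fun p => 2 * p.1 + 3 * p.2 = k)

lemma mem_sx {k : ℕ} {p : ℕ × ℕ} : p ∈ sx k ↔ 2 * p.1 + 3 * p.2 = k := by
  unfold sx
  rw [mem_filter, mem_product, mem_range, mem_range]
  constructor
  · intro h
    exact h.2
  · intro h
    exact ⟨⟨by omega, by omega⟩, h⟩

/-- the coefficient of `s ^ k` after the substitution -/
noncomputable def cE (w : ℤ) (k : ℕ) (f : PowerSeries A) : ℤ :=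
  ∑ p ∈ sx k, (-w) ^ p.1 * (w ^ 2) ^ p.2 * PowerSeries.coeff p.2 (PowerSeries.coeff p.1 f : A)

lemma coeff_coeff_mul' (f g : PowerSeries A) (n m : ℕ) :
    PowerSeries.coeff m (PowerSeries.coeff n (f * g) : A) =
      ∑ q ∈ antidiagonal m ×ˢ antidiagonal n,
        PowerSeries.coeff q.1.1 (PowerSeries.coeff q.2.1 f : A) *
          PowerSeries.coeff q.1.2 (PowerSeries.coeff q.2.2 g : A) := by
  rw [Finset.sum_product, PowerSeries.coeff_mul, map_sum]
  rw [Finset.sum_congr rfl fun p _ => PowerSeries.coeff_mul m (PowerSeries.coeff p.1 f : A)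
    (PowerSeries.coeff p.2 g : A)]
  rw [Finset.sum_comm]

/-- the substitution is multiplicative -/
theorem cE_mul (w : ℤ) (k : ℕ) (f g : PowerSeries A) :
    cE w k (f * g) = ∑ q ∈ antidiagonal k, cE w q.1 f * cE w q.2 g := by
  have h1 : cE w k (f * g) = ∑ p ∈ (sx k).sigma (fun p => antidiagonal p.2 ×ˢ antidiagonal p.1),
      (-w) ^ p.1.1 * (w ^ 2) ^ p.1.2 *
        (PowerSeries.coeff p.2.1.1 (PowerSeries.coeff p.2.2.1 f : A) *
          PowerSeries.coeff p.2.1.2 (PowerSeries.coeff p.2.2.2 g : A)) := by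
    unfold cE
    rw [Finset.sum_sigma]
    refine Finset.sum_congr rfl fun p _ => ?_
    rw [coeff_coeff_mul', Finset.mul_sum]
  have h2 : ∑ q ∈ antidiagonal k, cE w q.1 f * cE w q.2 g =
      ∑ p ∈ (antidiagonal k).sigma (fun q => sx q.1 ×ˢ sx q.2),
      ((-w) ^ p.2.1.1 * (w ^ 2) ^ p.2.1.2 *
        PowerSeries.coeff p.2.1.2 (PowerSeries.coeff p.2.1.1 f : A)) *
      ((-w) ^ p.2.2.1 * (w ^ 2) ^ p.2.2.2 *
        PowerSeries.coeff p.2.2.2 (PowerSeries.coeff p.2.2.1 g : A)) := by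
    rw [Finset.sum_sigma]
    refine Finset.sum_congr rfl fun q _ => ?_
    unfold cE
    rw [Finset.sum_mul_sum, ← Finset.sum_product']
  rw [h1, h2]
  refine Finset.sum_bij'
    (i := fun p _ => (⟨(2 * p.2.2.1 + 3 * p.2.1.1, 2 * p.2.2.2 + 3 * p.2.1.2),
      ((p.2.2.1, p.2.1.1), (p.2.2.2, p.2.1.2))⟩ :
      Σ _ : ℕ × ℕ, (ℕ × ℕ) × (ℕ × ℕ)))
    (j := fun p _ => (⟨(p.2.1.1 + p.2.2.1, p.2.1.2 + p.2.2.2),
      ((p.2.1.2, p.2.2.2), (p.2.1.1, p.2.2.1))⟩ :
      Σ _ : ℕ × ℕ, (ℕ × ℕ) × (ℕ × ℕ))) ?_ ?_ ?_ ?_ ?_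
  · rintro ⟨⟨n, m⟩, ⟨⟨u, u'⟩, ⟨v, v'⟩⟩⟩ hp
    simp only [mem_sigma, mem_product, mem_sx, HasAntidiagonal.mem_antidiagonal] at hp ⊢
    exact ⟨by omega, trivial, trivial⟩
  · rintro ⟨⟨a, b⟩, ⟨⟨n, m⟩, ⟨n', m'⟩⟩⟩ hp
    simp only [mem_sigma, mem_product, mem_sx, HasAntidiagonal.mem_antidiagonal] at hp ⊢
    exact ⟨by omega, trivial, trivial⟩
  · rintro ⟨⟨n, m⟩, ⟨⟨u, u'⟩, ⟨v, v'⟩⟩⟩ hp
    simp only [mem_sigma, mem_product, mem_sx, HasAntidiagonal.mem_antidiagonal] at hp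
    obtain ⟨h1, rfl, rfl⟩ := hp
    rfl
  · rintro ⟨⟨a, b⟩, ⟨⟨n, m⟩, ⟨n', m'⟩⟩⟩ hp
    simp only [mem_sigma, mem_product, mem_sx, HasAntidiagonal.mem_antidiagonal] at hp
    obtain ⟨h1, rfl, rfl⟩ := hp
    rfl
  · rintro ⟨⟨n, m⟩, ⟨⟨u, u'⟩, ⟨v, v'⟩⟩⟩ hp
    simp only [mem_sigma, mem_product, mem_sx, HasAntidiagonal.mem_antidiagonal] at hp
    obtain ⟨h1, rfl, rfl⟩ := hp
    simp only [pow_add]
    ring

lemma cE_add (w : ℤ) (k : ℕ) (f g : PowerSeries A) : cE w k (f + g) = cE w k f + cE w k g := by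
  unfold cE
  rw [← Finset.sum_add_distrib]
  refine Finset.sum_congr rfl fun p _ => ?_
  rw [map_add, map_add]
  ring

/-- the coefficients of `s ^ k` with `2 k < K` vanish -/
def Ev (w K : ℤ) (f : PowerSeries A) : Prop := ∀ k : ℕ, 2 * (k : ℤ) < K → cE w k f = 0

lemma Ev.mono {w K L : ℤ} {f : PowerSeries A} (h : Ev w L f) (hK : K ≤ L) : Ev w K f :=
  fun k hk => h k (by omega)

lemma Ev.mul {w K L : ℤ} {f g : PowerSeries A} (hf : Ev w K f) (hg : Ev w L g) :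
    Ev w (K + L) (f * g) := by
  intro k hk
  rw [cE_mul]
  refine Finset.sum_eq_zero fun q hq => ?_
  rw [HasAntidiagonal.mem_antidiagonal] at hq
  by_cases h : 2 * (q.1 : ℤ) < K
  · rw [hf _ h, zero_mul]
  · rw [hg q.2 (by omega), mul_zero]

lemma Ev.add {w K : ℤ} {f g : PowerSeries A} (hf : Ev w K f) (hg : Ev w K g) :
    Ev w K (f + g) := by
  intro k hk
  rw [cE_add, hf k hk, hg k hk, add_zero]

lemma Ev.zero (w K : ℤ) : Ev w K 0 := by
  intro k _
  unfold cE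
  refine Finset.sum_eq_zero fun p _ => ?_
  rw [map_zero, map_zero, mul_zero]

lemma Ev.one {w : ℤ} : Ev w 0 1 := by
  intro k hk
  omega

lemma Ev.sum {ι : Type*} {w K : ℤ} {s : Finset ι} {f : ι → PowerSeries A}
    (h : ∀ a ∈ s, Ev w K (f a)) : Ev w K (∑ a ∈ s, f a) := by
  classical
  induction s using Finset.induction_on with
  | empty =>
    rw [Finset.sum_empty]
    exact Ev.zero w K
  | insert a s ha ih =>
    rw [Finset.sum_insert ha]
    exact (h a (mem_insert_self _ _)).add (ih fun b hb => h b (mem_insert_of_mem hb))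

lemma Ev.prod {ι : Type*} {w : ℤ} {s : Finset ι} {K : ι → ℤ} {f : ι → PowerSeries A}
    (h : ∀ a ∈ s, Ev w (K a) (f a)) : Ev w (∑ a ∈ s, K a) (∏ a ∈ s, f a) := by
  classical
  induction s using Finset.induction_on with
  | empty =>
    rw [Finset.sum_empty, Finset.prod_empty]
    exact Ev.one
  | insert a s ha ih =>
    rw [Finset.sum_insert ha, Finset.prod_insert ha]
    exact (h a (mem_insert_self _ _)).mul (ih fun b hb => h b (mem_insert_of_mem hb))

/-- monomials of weight at least `K` -/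
lemma Ev.of_coeff {w K : ℤ} {f : PowerSeries A}
    (h : ∀ n m, PowerSeries.coeff m (PowerSeries.coeff n f : A) ≠ 0 →
      K ≤ 4 * (n : ℤ) + 6 * m) : Ev w K f := by
  intro k hk
  unfold cE
  refine Finset.sum_eq_zero fun p hp => ?_
  rw [mem_sx] at hp
  by_cases h0 : PowerSeries.coeff p.2 (PowerSeries.coeff p.1 f : A) = 0
  · rw [h0, mul_zero]
  · have := h _ _ h0
    omega

/-- a component with at most three sites whose initial form vanishes after the substitution -/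
lemma Ev.own {w : ℤ} {f : PowerSeries A} {b : ℕ} (hb : b ≤ 3) (hw : w ≠ 0)
    (h : ∀ n m, PowerSeries.coeff m (PowerSeries.coeff n f : A) ≠ 0 → 3 * b ≤ 2 * n + 3 * m)
    (h0 : PowerSeries.coeff b (PowerSeries.coeff 0 f : A) = 1)
    (h3 : PowerSeries.coeff b (dd ^ 2 * PowerSeries.coeff 3 f : A) = w) :
    Ev w (6 * (b : ℤ) + 2) f := by
  have h4 : 2 ≤ b ∧ PowerSeries.coeff (b - 2) (PowerSeries.coeff 3 f : A) = w := by
    unfold dd at h3
    rw [PowerSeries.coeff_X_pow_mul'] at h3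
    by_cases h5 : 2 ≤ b
    · rw [if_pos h5] at h3
      exact ⟨h5, h3⟩
    · rw [if_neg h5] at h3
      exact absurd h3.symm hw
  obtain ⟨h5, h6⟩ := h4
  intro k hk
  rcases Nat.lt_or_ge k (3 * b) with h9 | h9
  · refine Ev.of_coeff (K := 6 * (b : ℤ)) (fun n m hnm => ?_) k (by omega)
    have := h n m hnm
    omega
  · have hk9 : k = 3 * b := by omega
    subst hk9
    unfold cE
    have hs : sx (3 * b) = {(0, b), (3, b - 2)} := by
      ext ⟨n, m⟩
      rw [mem_sx, mem_insert, mem_singleton]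
      simp only [Prod.mk.injEq]
      omega
    rw [hs, Finset.sum_pair (by simp)]
    simp only [h0, h6]
    obtain ⟨c, rfl⟩ : ∃ c, b = c + 2 := ⟨b - 2, by omega⟩
    rw [Nat.add_sub_cancel]
    ring

/-- THE COUNTING ARGUMENT -/
theorem count_arg {ι : Type*} [DecidableEq ι] (s : Finset ι) (b : ι → ℕ) (c : ι → ℤ)
    (V : ι → PowerSeries A) (X : Finset ι → PowerSeries A) (T : PowerSeries A) {w : ℤ}
    (hw : w ≠ 0)
    (hV : ∀ a ∈ s, Ev w (6 * (b a : ℤ) + c a) (V a))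
    (hX : ∀ S, S ⊆ s → S.Nonempty → Ev w (∑ a ∈ S, (6 * (b a : ℤ) + c a)) (X S))
    (hT : ∀ n m, PowerSeries.coeff m (PowerSeries.coeff n T : A) ≠ 0 → ∑ a ∈ s, b a ≤ m)
    (hT0 : PowerSeries.coeff (∑ a ∈ s, b a) (PowerSeries.coeff 0 T : A) = 1)
    (hsum : T = ∏ a ∈ s, V a + ∑ S ∈ s.powerset.erase ∅, X S * ∏ a ∈ s \ S, V a) :
    ∑ a ∈ s, c a ≤ 0 := by
  classical
  have h1 : Ev w (∑ a ∈ s, (6 * (b a : ℤ) + c a)) T := by
    rw [hsum]
    refine (Ev.prod hV).add (Ev.sum fun S hS => ?_)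
    rw [mem_erase, mem_powerset] at hS
    have h2 := (hX S hS.2 (nonempty_iff_ne_empty.2 hS.1)).mul
      (Ev.prod (s := s \ S) (K := fun a => 6 * (b a : ℤ) + c a) (f := V)
        fun a ha => hV a (mem_sdiff.1 ha).1)
    refine h2.mono ?_
    rw [add_comm, Finset.sum_sdiff hS.2]
  obtain ⟨B, hB⟩ : ∃ B : ℕ, B = ∑ a ∈ s, b a := ⟨_, rfl⟩
  have hne : cE w (3 * B) T ≠ 0 := by
    unfold cE
    rw [Finset.sum_eq_single_of_mem (0, B)]
    · simp only [pow_zero, one_mul]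
      rw [hB, hT0, mul_one]
      exact pow_ne_zero _ (pow_ne_zero _ hw)
    · rw [mem_sx]
      simp only
      omega
    · rintro ⟨n, m⟩ hp hnm
      rw [mem_sx] at hp
      simp only at hp ⊢
      by_cases h0 : PowerSeries.coeff m (PowerSeries.coeff n T : A) = 0
      · rw [h0, mul_zero]
      · exfalso
        have h2 := hT n m h0
        apply hnm
        rw [Prod.mk.injEq]
        omega
  have h2 : ¬ 2 * ((3 * B : ℕ) : ℤ) < ∑ a ∈ s, (6 * (b a : ℤ) + c a) := fun h => hne (h1 _ h)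
  rw [Finset.sum_add_distrib, ← Finset.mul_sum] at h2
  have h3 : ((B : ℕ) : ℤ) = ∑ a ∈ s, (b a : ℤ) := by
    rw [hB]
    push_cast
    rfl
  push_cast at h2
  rw [h3] at h2
  linarith

end Pool.Agent.GaussPoset.Win.Cu
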