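import Pool.Agent.W_448cu_h16.CuA
import Pool.Agent.W_448pb_h63.PbC
import Pool.Agent.W_448ut_h16.UtB

/-!
# The counting theorem for labels (MP_448cb3_co, case B)

From the bounds for the own series and for the cross series: the number of the light labels with
three sites and the value `w` is at most four times the number of the labels with two stars.
-/

namespace Pool.Agent.GaussPoset.Win.Cu

set_option linter.unusedSectionVars false

open Finset I2 K2 Ut

universe u

variable {P : Type u} [Fintype P] [PartialOrder P] [DecidableEq P] {r i : ℕ}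

variable {ι : Type*} [DecidableEq ι] {κ : P → ι} {K : Finset P} {psi : P → P}

/-- the own series of a component with at most three sites and the value `w` -/
theorem own_light (H : Gr P r) (hir : i ≤ r) {a : ι} {w : ℤ} (hw0 : w ≠ 0)
    (h3 : (st i (cext (i + 1) κ a)).card ≤ 3)
    (hW : Wt3 (st i (cext (i + 1) κ a)).card (ZS i (cext (i + 1) κ a)))
    (hw : w3 (bb i (i + 1) κ a) (VV i (i + 1) κ a) = w) :
    Ev w (6 * ((st i (cext (i + 1) κ a)).card : ℤ) + 2) (ZS i (cext (i + 1) κ a)) := by
  refine Ev.own h3 hw0 ?_ ?_ ?_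
  · intro n m hne
    by_contra hlt
    apply hne
    exact coeff_zero_of_dvd (hW n) (by omega)
  · rw [coeff_ZS, ZC_zero H hir]
    unfold dd
    rw [PowerSeries.coeff_X_pow, if_pos rfl]
  · rw [← hw]
    unfold w3 bb VV
    rfl

/-- THE COUNTING THEOREM for labels -/
theorem count_label (H : Gr P r) (hir : i ≤ r) (hκ : Split (i + 1) κ) {S0 P6 : Finset ι} {w : ℤ}
    (hw : w ≠ 0) (h06 : Disjoint S0 P6) (hS : S0 ⊆ univ.image κ) (hP : P6 ⊆ univ.image κ)
    (hW : ∀ a, a ∉ P6 → Wt3 (st i (cext (i + 1) κ a)).card (ZS i (cext (i + 1) κ a)))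
    (h3 : ∀ a ∈ S0, (st i (cext (i + 1) κ a)).card ≤ 3)
    (hw3 : ∀ a ∈ S0, w3 (bb i (i + 1) κ a) (VV i (i + 1) κ a) = w)
    (hO : ∀ a ∈ P6, ∀ n m,
      PowerSeries.coeff m (PowerSeries.coeff n (ZS i (cext (i + 1) κ a)) : A) ≠ 0 →
      6 * (st i (cext (i + 1) κ a)).card ≤ 4 * n + 6 * m + 4)
    (hX : ∀ S : Finset ι, S.Nonempty → ∀ n m,
      PowerSeries.coeff m (PowerSeries.coeff n (XS i (i + 1) κ S) : A) ≠ 0 →
      6 * (∑ a ∈ S, (st i (cext (i + 1) κ a)).card) + (S0 ∩ S).card ≤
        4 * n + 6 * m + 4 * (P6 ∩ S).card) :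
    S0.card ≤ 4 * P6.card := by
  classical
  obtain ⟨c, hc⟩ : ∃ c : ι → ℤ, c = fun a => (if a ∈ S0 then 1 else 0) -
      (if a ∈ P6 then 4 else 0) := ⟨_, rfl⟩
  have hcs : ∀ S : Finset ι, ∑ a ∈ S, c a = ((S0 ∩ S).card : ℤ) - 4 * (P6 ∩ S).card := by
    intro S
    rw [hc, Finset.sum_sub_distrib, Finset.sum_ite_mem, Finset.sum_ite_mem, Finset.sum_const,
      Finset.sum_const, inter_comm S S0, inter_comm S P6, nsmul_eq_mul, nsmul_eq_mul]
    ring
  have key := count_arg (univ.image κ) (fun a => (st i (cext (i + 1) κ a)).card) c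
    (fun a => ZS i (cext (i + 1) κ a)) (XS i (i + 1) κ) (TS P i) hw ?_ ?_ ?_ ?_
    (TS_eq H hir (by omega) hκ)
  · rw [hcs, inter_eq_left.2 hS, inter_eq_left.2 hP] at key
    have h1 : (S0.card : ℤ) ≤ 4 * P6.card := by linarith
    exact_mod_cast h1
  · intro a _
    by_cases h6 : a ∈ P6
    · have h0 : a ∉ S0 := fun h => disjoint_left.1 h06 h h6
      have h1 : c a = -4 := by
        rw [hc]
        simp only
        rw [if_neg h0, if_pos h6]
        norm_num
      rw [h1]
      refine Ev.of_coeff fun n m hne => ?_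
      have := hO a h6 n m hne
      omega
    · by_cases h0 : a ∈ S0
      · have h1 : c a = 1 := by
          rw [hc]
          simp only
          rw [if_pos h0, if_neg h6]
          norm_num
        rw [h1]
        exact (own_light H hir hw (h3 a h0) (hW a h6) (hw3 a h0)).mono (by linarith)
      · have h1 : c a = 0 := by
          rw [hc]
          simp only
          rw [if_neg h0, if_neg h6]
          norm_num
        rw [h1]
        refine Ev.of_coeff fun n m hne => ?_
        by_contra hlt
        apply hne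
        exact coeff_zero_of_dvd (hW a h6 n) (by omega)
  · intro S _ hne
    rw [Finset.sum_add_distrib, ← Finset.mul_sum, hcs]
    refine Ev.of_coeff fun n m h => ?_
    have h1 := hX S hne n m h
    have h2 : ((6 * (∑ a ∈ S, (st i (cext (i + 1) κ a)).card) + (S0 ∩ S).card : ℕ) : ℤ) ≤
        ((4 * n + 6 * m + 4 * (P6 ∩ S).card : ℕ) : ℤ) := by exact_mod_cast h1
    push_cast at h2
    linarith
  · intro n m hne
    rw [sum_card_st (by omega) hκ]
    by_contra hlt
    apply hne
    unfold TS
    rw [PowerSeries.coeff_mk]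
    exact coeff_zero_of_dvd (dvd_sum_trm H hir n) (by omega)
  · rw [sum_card_st (by omega) hκ]
    have h1 := TS_form H hir
    have h2 : (Gf (2 * (lv P i).card) (TS P i)).coeff (lv P i).card =
        (Polynomial.X ^ (lv P i).card : Polynomial ℤ).coeff (lv P i).card := by rw [h1]
    rw [coeff_Gf, if_pos le_rfl, Nat.sub_self, Polynomial.coeff_X_pow, if_pos rfl] at h2
    exact h2

end Pool.Agent.GaussPoset.Win.Cu
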