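import Pool.Agent.W_448cu_h16.CuB
import Pool.Agent.W_448cl_h64.CnC
import Pool.Agent.W_448L2_h10.CrB
import Pool.Agent.W_448L1_h63.LaH
import Pool.Agent.W_448t8_h97.TG

/-!
# The counting theorem in case B (MP_448cb3_co)

The light components with at most three sites and the value `-1` at the energy three are at most
four times as many as the components with two stars.
-/

namespace Pool.Agent.GaussPoset.EK

set_option linter.unusedSectionVars false

open Finset Win St Polynomial Wd

universe u

variable {P : Type u} [Fintype P] [PartialOrder P] [DecidableEq P] {r j : ℕ}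

variable {K : Finset P} {psi : P → P}

/-- a light component with at most three sites and the value `-1` at the energy three -/
def SL (j : ℕ) (K : Finset P) (t : Tops P) : Prop :=
  Pn.F3 j t = -1 ∧ (st j (cext (j + 1) (topOf : P → Tops P) t)).card ≤ 3 ∧
    ∀ z y v : P, K2.SD j (topOf : P → Tops P) z y v → topOf v = t →
      sa j (topOf : P → Tops P) K (uc v) (topOf v) = 0

/-- a component with two stars -/
def Is6 (j : ℕ) (t : Tops P) : Prop :=
  ∃ (m : ℕ) (x : ℕ → P) (c : ℕ → ℤ) (β : ℤ), RowB P j t m x c β ∧ Pat6 m c β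

/-- the cross series -/
def HCross (P : Type u) [Fintype P] [PartialOrder P] [DecidableEq P] (i : ℕ)
    (S0 P6 : Finset (Tops P)) : Prop :=
  ∀ S : Finset (Tops P), S.Nonempty → ∀ n m,
      PowerSeries.coeff m (PowerSeries.coeff n
        (Ut.XS i (i + 1) (topOf : P → Tops P) S) : A) ≠ 0 →
      6 * (∑ a ∈ S, (st i (cext (i + 1) (topOf : P → Tops P) a)).card) + (S0 ∩ S).card ≤
        4 * n + 6 * m + 4 * (P6 ∩ S).card

lemma row_sites (h : NJ P r j) {t : Tops P} {m : ℕ} {x : ℕ → P} {c : ℕ → ℤ} {β : ℤ}
    (B : RowB P j t m x c β) :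
    m + 1 ≤ (st j (cext (j + 1) (topOf : P → Tops P) t)).card := by
  classical
  have h1 : (range (m + 1)).image x ⊆ st j (cext (j + 1) (topOf : P → Tops P) t) := by
    intro v hv
    obtain ⟨k, hk, rfl⟩ := mem_image.1 hv
    rw [mem_range] at hk
    rw [mem_sites h.split]
    exact ⟨B.row.lev_x k (by omega), B.row.kap k (by omega)⟩
  have h2 := card_le_card h1
  rw [card_image_of_injOn, card_range] at h2
  · exact h2
  · intro a ha b hb hab
    rw [mem_coe, mem_range] at ha hb
    exact B.row.inj a b (by omega) (by omega) hab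

section main

variable (h : NJ P r j) (hj : 2 ≤ j) (R : Red P j K psi)

include h hj

/-- a component without two stars is small -/
lemma NJ.small_not6 {t : Tops P} (h6 : ¬ Is6 j t) : Small j (topOf : P → Tops P) t := by
  obtain ⟨m, x, c, β, B⟩ := NJ.rowB h hj t
  exact (B.small h.g.H h.split).resolve_right fun hp => h6 ⟨m, x, c, β, B, hp⟩

include R

open Classical in
/-- THE COUNTING THEOREM from the cross series -/
theorem NJ.count_of (hX : HCross P j (univ.filter (fun t => SL j K t))
      (univ.filter (fun t => Is6 j t))) :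
    (univ.filter (fun t : Tops P => SL j K t)).card ≤
      4 * (univ.filter (fun t : Tops P => Is6 j t)).card := by
  have hjr : j ≤ r := by have := h.hr; omega
  have hg : ∀ m, m + 1 = j → Win.Good P m := fun m hm => h.g.good m (by omega)
  have himg : univ.image (topOf : P → Tops P) = (univ : Finset (Tops P)) := by
    ext t
    simp only [mem_univ, iff_true]
    refine mem_image.2 ⟨(t : P), mem_univ _, ?_⟩
    exact Subtype.ext (Hul.top_unique (h.nj (by have := t.2; omega)) (topOf (t : P)).2 t.2
      (le_topOf (t : P)) le_rfl)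
  refine Cu.count_label h.g.H hjr h.split (w := -1) (by norm_num) ?_ ?_ ?_ ?_ ?_ ?_ ?_ hX
  · rw [disjoint_left]
    intro t ht ht'
    obtain ⟨-, h1, -⟩ := (mem_filter.1 ht).2
    obtain ⟨m, x, c, β, B, hp⟩ := (mem_filter.1 ht').2
    have h2 := row_sites h B
    have h3 := hp.1
    omega
  · rw [himg]
    exact subset_univ _
  · rw [himg]
    exact subset_univ _
  · intro t ht
    have h6 : ¬ Is6 j t := fun h6 => ht (mem_filter.2 ⟨mem_univ _, h6⟩)
    exact K2.own_Wt3 h.g.H hjr (NJ.noQ h hj) hg h.split R.mat R.sub
      (K2.star_small h.g.H hjr h.split R (NJ.small_not6 h hj h6))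
  · intro t ht
    exact (mem_filter.1 ht).2.2.1
  · intro t ht
    exact (mem_filter.1 ht).2.1
  · intro t ht n m hne
    obtain ⟨m', x, c, β, B, hp⟩ := (mem_filter.1 ht).2
    have h1 := K2.own_slope h.g.H hjr (NJ.noQ h hj) hg h.split R.mat (a := t) (c := 2)
      (fun e hd XL XU hL hU => B.row.cap6 R h.g.H hjr (NJ.noQ h hj) hg h.split hp hd XL XU hL hU)
      hne
    omega

end main

end Pool.Agent.GaussPoset.EK
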