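import Pool.Agent.W_448cu_h16.CuC
import Pool.Agent.W_448cu_h27.CsA

/-!
# The counting theorem in case B (MP_448cb3_co): the end
-/

namespace Pool.Agent.GaussPoset.EK

set_option linter.unusedSectionVars false

open Finset Win St Polynomial Wd

universe u

variable {P : Type u} [Fintype P] [PartialOrder P] [DecidableEq P] {r j : ℕ}

variable {K : Finset P} {psi : P → P}

section main

variable (h : NJ P r j) (hj : 2 ≤ j) (R : Red P j K psi)

include h hj R

/-- THE COUNTING THEOREM: the light components with at most three sites and the value `-1` are at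
most four times as many as the components with two stars -/
theorem NJ.count {S0 P6 : Finset (Tops P)} (hS : ∀ t ∈ S0, SL j K t)
    (h6 : ∀ t, Is6 j t → t ∈ P6) (h6' : ∀ t ∈ P6, Is6 j t) : S0.card ≤ 4 * P6.card := by
  classical
  have hjr : j ≤ r := by have := h.hr; omega
  have hg : ∀ m, m + 1 = j → Win.Good P m := fun m hm => h.g.good m (by omega)
  have himg : univ.image (topOf : P → Tops P) = (univ : Finset (Tops P)) := by
    ext t
    simp only [mem_univ, iff_true]
    refine mem_image.2 ⟨(t : P), mem_univ _, ?_⟩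
    exact Subtype.ext (Hul.top_unique (h.nj (by have := t.2; omega)) (topOf (t : P)).2 t.2
      (le_topOf (t : P)) le_rfl)
  have hdis : Disjoint S0 P6 := by
    rw [disjoint_left]
    intro t ht ht'
    obtain ⟨-, h1, -⟩ := hS t ht
    obtain ⟨m, x, c, β, B, hp⟩ := h6' t ht'
    have h2 := row_sites h B
    have h3 := hp.1
    omega
  have hst : ∀ t : Tops P, t ∉ P6 → K2.Star j (cext (j + 1) (topOf : P → Tops P) t) K :=
    fun t ht => K2.star_small h.g.H hjr h.split R (NJ.small_not6 h hj fun q => ht (h6 t q))
  have hcap : ∀ e : P → ℕ, Disjoint (AL j e) (AU j e) → ∀ t ∈ P6,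
      K2.Cap j (topOf : P → Tops P) K e t 2 := by
    intro e hd t ht
    obtain ⟨m', x, c, β, B, hp⟩ := h6' t ht
    exact B.row.cap6 R h.g.H hjr (NJ.noQ h hj) hg h.split hp hd
  refine Cu.count_label h.g.H hjr h.split (w := -1) (by norm_num) hdis ?_ ?_ ?_ ?_ ?_ ?_ ?_
  · rw [himg]
    exact subset_univ _
  · rw [himg]
    exact subset_univ _
  · intro t ht
    exact K2.own_Wt3 h.g.H hjr (NJ.noQ h hj) hg h.split R.mat R.sub (hst t ht)
  · intro t ht
    exact (hS t ht).2.1
  · intro t ht
    exact (hS t ht).1
  · intro t ht n m hne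
    have h1 := K2.own_slope h.g.H hjr (NJ.noQ h hj) hg h.split R.mat (a := t) (c := 2)
      (fun e hd XL XU hL hU => hcap e hd t ht XL XU hL hU) hne
    omega
  · intro S _ n m hne
    have h1 := K2.cross_slope h.g.H hjr (NJ.noQ h hj) hg h.split R.mat (T := S) (S0 := S0)
      (P6 := P6) (C := 2) (fun a _ ha => hst a ha) (fun e hd a _ ha => hcap e hd a ha)
      (fun t ht => (hS t ht).2.1)
      (fun t ht z y v S1 hv => by
        subst hv
        exact R.own_light h.g.H h.split (hS _ ht).2.1 (S1.lv' h.g.H) S1.cv rfl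
          ((hS _ ht).2.2 z y v S1 rfl)) hdis hne
    omega

end main

end Pool.Agent.GaussPoset.EK
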