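import Pool.Agent.W_448cu_h16.CuD
import Pool.Agent.W_448st0_h96.SzF

/-!
# The counting theorem as an input of step 0 (MP_448cb3_co)
-/

namespace Pool.Agent.GaussPoset.EK

set_option linter.unusedSectionVars false

open Finset Win St Polynomial Wd

universe u

variable {P : Type u} [Fintype P] [PartialOrder P] [DecidableEq P]

/-- INPUT of step 0: THE COUNT -/
theorem hcount : HCount P := by
  intro r j K psi hj h R A B hA hB hB'
  exact NJ.count h hj R (S0 := A) (P6 := B)
    (fun t ht => ⟨(hA t ht).1, (hA t ht).2.1, (hA t ht).2.2⟩) hB hB'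

end Pool.Agent.GaussPoset.EK
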